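import Pool.Agent.TSF.Lin

/-!
The number of bad polynomials.
-/

set_option autoImplicit false

namespace Pool.TSF

open Polynomial

lemma pow_44 : (65 : ℕ) ^ 44 ≤ 2 * 64 ^ 44 := by norm_num

/-- The number of subsets with at most `r` elements. -/
lemma sparse_bound (s : Finset ℕ) (r x : ℕ) (hM : s.card ≤ 44 * x) :
    (s.powerset.filter (fun A => A.card ≤ r)).card ≤ 2 ^ (6 * r + x) := by
  set M := s.card with hMdef
  set N := (s.powerset.filter (fun A => A.card ≤ r)).card with hN
  have h1 : N * 64 ^ M ≤ 64 ^ r * 65 ^ M := by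
    have h2 : ∑ A ∈ s.powerset, 1 ^ A.card * 64 ^ (s.card - A.card) = (1 + 64) ^ s.card :=
      Finset.sum_pow_mul_eq_add_pow 1 64 s
    rw [show (1 : ℕ) + 64 = 65 by norm_num] at h2
    rw [← hMdef] at h2
    rw [← h2, Finset.mul_sum]
    calc N * 64 ^ M = ∑ A ∈ s.powerset.filter (fun A => A.card ≤ r), 64 ^ M := by
          rw [Finset.sum_const, smul_eq_mul]
      _ ≤ ∑ A ∈ s.powerset.filter (fun A => A.card ≤ r),
            64 ^ r * (1 ^ A.card * 64 ^ (M - A.card)) := by
          apply Finset.sum_le_sum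
          intro A hA
          rw [Finset.mem_filter, Finset.mem_powerset] at hA
          have h3 := Finset.card_le_card hA.1
          rw [one_pow, one_mul, ← pow_add]
          exact Nat.pow_le_pow_right (by norm_num) (by omega)
      _ ≤ ∑ A ∈ s.powerset, 64 ^ r * (1 ^ A.card * 64 ^ (M - A.card)) :=
          Finset.sum_le_sum_of_subset (Finset.filter_subset _ _)
  have h2 : (65 : ℕ) ^ M ≤ 2 ^ x * 64 ^ M := by
    have h3 : (65 : ℕ) ^ (44 * x) ≤ 2 ^ x * 64 ^ (44 * x) := by
      rw [pow_mul, pow_mul, ← mul_pow]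
      exact Nat.pow_le_pow_left pow_44 x
    have h4 : (65 : ℕ) ^ M * 64 ^ (44 * x - M) ≤ 65 ^ (44 * x) := by
      calc (65 : ℕ) ^ M * 64 ^ (44 * x - M) ≤ 65 ^ M * 65 ^ (44 * x - M) :=
            Nat.mul_le_mul_left _ (Nat.pow_le_pow_left (by norm_num) _)
        _ = 65 ^ (44 * x) := by rw [← pow_add]; congr 1; omega
    have h5 : (2 : ℕ) ^ x * 64 ^ (44 * x) = 2 ^ x * 64 ^ M * 64 ^ (44 * x - M) := by
      rw [mul_assoc, ← pow_add]
      congr 2
      omega
    rw [h5] at h3
    exact Nat.le_of_mul_le_mul_right (h4.trans h3) (by positivity)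
  have h3 : N * 64 ^ M ≤ 2 ^ (6 * r + x) * 64 ^ M := by
    calc N * 64 ^ M ≤ 64 ^ r * 65 ^ M := h1
      _ ≤ 64 ^ r * (2 ^ x * 64 ^ M) := Nat.mul_le_mul_left _ h2
      _ = 2 ^ (6 * r + x) * 64 ^ M := by
          rw [pow_add, pow_mul]
          norm_num
          ring
  exact Nat.le_of_mul_le_mul_right h3 (by positivity)

/-- The number of bad polynomials of degree at most `m'`. -/
theorem bad_count (m m' a b r k t xA xD : ℕ) (hA : m + m' + 1 ≤ 44 * xA)
    (hD : b - a ≤ 44 * xD) (hta : t ≤ a) (htb : t + b ≤ m) (htm : t ≤ m') :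
    Set.ncard {h : (ZMod 2)[X] | h.natDegree ≤ m' ∧ Bad m (m + m') a b r k h} ≤
      2 ^ (6 * r + xA) * 2 ^ (6 * k + xD) * 2 ^ (m' - t) := by
  classical
  have hfin : ∀ A D : Finset ℕ, {h : (ZMod 2)[X] | h.natDegree ≤ m' ∧
      ∀ j < m, hank (ind A) j h = ind D j}.Finite := fun A D =>
    (finite_natDegree_le m').subset (fun h hh => hh.1)
  have hfin' : {h : (ZMod 2)[X] | h.natDegree ≤ m' ∧ Bad m (m + m') a b r k h}.Finite :=
    (finite_natDegree_le m').subset (fun h hh => hh.1)
  set SA := (Finset.range (m + m' + 1)).powerset.filter (fun A => A.card ≤ r) with hSA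
  set SD := ((Finset.Ico a b).powerset.filter (fun A => A.card ≤ k)).filter
    (fun D => D.Nonempty) with hSD
  have hsub : hfin'.toFinset ⊆ (SA ×ˢ SD).biUnion (fun p => (hfin p.1 p.2).toFinset) := by
    intro h hh
    rw [Set.Finite.mem_toFinset] at hh
    obtain ⟨hdeg, A, D, hA1, hA2, hD1, hD2, hD3, hAD⟩ := hh
    rw [Finset.mem_biUnion]
    refine ⟨(A, D), ?_, ?_⟩
    · rw [Finset.mem_product, hSA, hSD, Finset.mem_filter, Finset.mem_filter, Finset.mem_filter,
        Finset.mem_powerset, Finset.mem_powerset]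
      exact ⟨⟨hA1, hA2⟩, ⟨hD1, hD3⟩, hD2⟩
    · rw [Set.Finite.mem_toFinset]
      exact ⟨hdeg, hAD⟩
  have hcard : Set.ncard {h : (ZMod 2)[X] | h.natDegree ≤ m' ∧ Bad m (m + m') a b r k h} =
      hfin'.toFinset.card := by
    rw [← Set.ncard_coe_finset, Set.Finite.coe_toFinset]
  rw [hcard]
  calc hfin'.toFinset.card
      ≤ ((SA ×ˢ SD).biUnion (fun p => (hfin p.1 p.2).toFinset)).card :=
        Finset.card_le_card hsub
    _ ≤ ∑ p ∈ SA ×ˢ SD, (hfin p.1 p.2).toFinset.card := Finset.card_biUnion_le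
    _ ≤ ∑ p ∈ SA ×ˢ SD, 2 ^ (m' - t) := by
        apply Finset.sum_le_sum
        rintro ⟨A, D⟩ hp
        have hp' : D ∈ SD := (Finset.mem_product.mp hp).2
        rw [hSD, Finset.mem_filter, Finset.mem_filter, Finset.mem_powerset] at hp'
        obtain ⟨⟨hD1, -⟩, j, hj⟩ := hp'
        have h1 := card_solutions (ind A) (ind D) m' m a b t
          (by
            intro j _ hj
            have hjD : j ∈ D := by
              by_contra hcon
              apply hj
              simp [ind, hcon]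
            exact Finset.mem_Ico.mp (hD1 hjD))
          (by
            have h2 := Finset.mem_Ico.mp (hD1 hj)
            refine ⟨j, by omega, ?_⟩
            simp [ind, hj]) hta htb htm
        have h2 : (hfin A D).toFinset.card = Set.ncard {h : (ZMod 2)[X] | h.natDegree ≤ m' ∧
            ∀ j < m, hank (ind A) j h = ind D j} := by
          rw [← Set.ncard_coe_finset, Set.Finite.coe_toFinset]
        rw [h2]
        exact h1
    _ = SA.card * SD.card * 2 ^ (m' - t) := by
        rw [Finset.sum_const, smul_eq_mul, Finset.card_product]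
    _ ≤ 2 ^ (6 * r + xA) * 2 ^ (6 * k + xD) * 2 ^ (m' - t) := by
        apply Nat.mul_le_mul_right
        apply Nat.mul_le_mul
        · exact sparse_bound _ _ _ (by rw [Finset.card_range]; exact hA)
        · exact (Finset.card_le_card (Finset.filter_subset _ _)).trans
            (sparse_bound _ _ _ (by rw [Nat.card_Ico]; exact hD))

end Pool.TSF
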