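import Pool.Agent.TSF.Main

/-!
The time-space tradeoff for finding a factor: parameters and averaging.
-/

set_option autoImplicit false

namespace Pool.TSF

open Polynomial

lemma sq_lt_two_pow {s : ℕ} (hs : 30 ≤ s) : 160000 * s ^ 2 < 2 ^ s := by
  induction s, hs using Nat.le_induction with
  | base => norm_num
  | succ s hs ih =>
    have h1 : (s + 1) ^ 2 ≤ 2 * s ^ 2 := by nlinarith
    calc 160000 * (s + 1) ^ 2 ≤ 2 * (160000 * s ^ 2) := by linarith
      _ < 2 * 2 ^ s := by linarith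
      _ = 2 ^ (s + 1) := by ring

namespace Prog

variable {V : Type} (B : Prog V)

lemma finds_succ {m T : ℕ} {g h : (ZMod 2)[X]} (hg : g ∈ irrF m) (hh : h ∈ irrF (m + 1))
    (hf : B.Finds (g * h) T) : B.Succ T m g h ∨ B.Succ T (m + 1) h g := by
  rw [mem_irrF] at hg hh
  obtain ⟨P, hP, hdvd, -, hcl⟩ := hf
  rcases hP.prime.dvd_or_dvd hdvd with h1 | h1
  · left
    have h2 := eq_of_dvd hP hg.1 h1
    subst h2
    rw [hg.2] at hcl
    exact hcl
  · right
    have h2 := eq_of_dvd hP hh.1 h1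
    subst h2
    rw [hh.2] at hcl
    intro j hj y
    rw [mul_comm]
    exact hcl j hj y

open Classical in
/-- Core inequality for deterministic programs. -/
theorem core [Fintype V] (m s L T k' : ℕ) (hs : 30 ≤ s) (hm1 : 96 * s ≤ m)
    (hm2 : m + 1 ≤ 96 * (s + 1)) (hL : 1 ≤ L) (hT : T ≤ L * s) (hk : k' ≤ s)
    (hLk : L * k' ≤ 32 * s)
    (hN : (irrF m).card * (irrF (m + 1)).card ≤ (2 * m + 1) *
      ((irrF m ×ˢ irrF (m + 1)).filter (fun p => B.Finds (p.1 * p.2) T)).card) :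
    2 ^ k' ≤ 4 * (2 * m + 1) ^ 2 * (1 + (L - 1) * Fintype.card V) := by
  set n := 2 * m + 1 with hn
  set G := 1 + (L - 1) * Fintype.card V with hG
  set I := (irrF m).card with hI
  set I' := (irrF (m + 1)).card with hI'
  set N1 := ((irrF m ×ˢ irrF (m + 1)).filter (fun p => B.Succ T m p.1 p.2)).card with hN1
  set N2 := ((irrF (m + 1) ×ˢ irrF m).filter (fun p => B.Succ T (m + 1) p.1 p.2)).card with hN2
  set β1 := 2 ^ (6 * s + (5 * s + 6)) * 2 ^ (6 * s + (s + 3)) * 2 ^ (m + 1 - 32 * s) with hβ1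
  set β2 := 2 ^ (6 * s + (5 * s + 6)) * 2 ^ (6 * s + (s + 3)) * 2 ^ (m - 32 * s) with hβ2
  have hc1 : 2 ^ k' * N1 ≤ 2 ^ k' * β1 * I + G * 2 ^ m * I' := by
    apply B.card_pairs m (m + 1) (32 * s) (m - 32 * s) s s k' L T β1 (by omega) hL hT
      (by omega) (by omega) hk
    exact bad_count m (m + 1) (32 * s) (m - 32 * s) s s (32 * s) (5 * s + 6) (s + 3)
      (by omega) (by omega) (by omega) (by omega) (by omega)
  have hc2 : 2 ^ k' * N2 ≤ 2 ^ k' * β2 * I' + G * 2 ^ (m + 1) * I := by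
    apply B.card_pairs (m + 1) m (32 * s) (m + 1 - 32 * s) s s k' L T β2 (by omega) hL hT
      (by omega) (by omega) hk
    exact bad_count (m + 1) m (32 * s) (m + 1 - 32 * s) s s (32 * s) (5 * s + 6) (s + 3)
      (by omega) (by omega) (by omega) (by omega) (by omega)
  -- the number of pairs
  have hNN : ((irrF m ×ˢ irrF (m + 1)).filter (fun p => B.Finds (p.1 * p.2) T)).card ≤
      N1 + N2 := by
    have h1 : (irrF m ×ˢ irrF (m + 1)).filter (fun p => B.Finds (p.1 * p.2) T) ⊆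
        (irrF m ×ˢ irrF (m + 1)).filter (fun p => B.Succ T m p.1 p.2) ∪
        ((irrF (m + 1) ×ˢ irrF m).filter (fun p => B.Succ T (m + 1) p.1 p.2)).image
          Prod.swap := by
      rintro ⟨g, h⟩ hp
      rw [Finset.mem_filter, Finset.mem_product] at hp
      rw [Finset.mem_union]
      rcases B.finds_succ hp.1.1 hp.1.2 hp.2 with h2 | h2
      · left
        rw [Finset.mem_filter, Finset.mem_product]
        exact ⟨hp.1, h2⟩
      · right
        rw [Finset.mem_image]
        refine ⟨(h, g), ?_, rfl⟩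
        rw [Finset.mem_filter, Finset.mem_product]
        exact ⟨⟨hp.1.2, hp.1.1⟩, h2⟩
    refine (Finset.card_le_card h1).trans ((Finset.card_union_le _ _).trans ?_)
    exact Nat.add_le_add_left Finset.card_image_le _
  have hIm : 2 ^ m ≤ 2 * m * I := by
    rw [hI, card_irrF]
    exact irr_lower (by omega)
  have hIm' : 2 ^ (m + 1) ≤ 2 * (m + 1) * I' := by
    rw [hI', card_irrF]
    exact irr_lower (by omega)
  have hIpos : 0 < I := by
    rcases Nat.eq_zero_or_pos I with h | h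
    · rw [h, mul_zero] at hIm
      exact absurd hIm (Nat.not_le.mpr (by positivity))
    · exact h
  have hIpos' : 0 < I' := by
    rcases Nat.eq_zero_or_pos I' with h | h
    · rw [h, mul_zero] at hIm'
      exact absurd hIm' (Nat.not_le.mpr (by positivity))
    · exact h
  have hb1 : 2 ^ (14 * s) * β1 = 2 ^ 9 * 2 ^ (m + 1) := by
    rw [hβ1, ← pow_add, ← pow_add, ← pow_add, ← pow_add]
    congr 1
    omega
  have hb2 : 2 ^ (14 * s) * β2 = 2 ^ 9 * 2 ^ m := by
    rw [hβ2, ← pow_add, ← pow_add, ← pow_add, ← pow_add]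
    congr 1
    omega
  -- the main estimate
  have hmain : 2 ^ (14 * s) * 2 ^ k' * (I * I') ≤
      2 * n ^ 2 * (2 ^ 9 * 2 ^ k' + 2 ^ (14 * s) * G) * (I * I') := by
    calc 2 ^ (14 * s) * 2 ^ k' * (I * I')
        ≤ 2 ^ (14 * s) * 2 ^ k' * (n * (N1 + N2)) :=
          Nat.mul_le_mul_left _ (hN.trans (Nat.mul_le_mul_left _ hNN))
      _ = n * (2 ^ (14 * s) * (2 ^ k' * N1 + 2 ^ k' * N2)) := by ring
      _ ≤ n * (2 ^ (14 * s) * ((2 ^ k' * β1 * I + G * 2 ^ m * I') +
            (2 ^ k' * β2 * I' + G * 2 ^ (m + 1) * I))) := by gcongr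
      _ = n * (2 ^ k' * (2 ^ (14 * s) * β1) * I + 2 ^ (14 * s) * G * 2 ^ m * I' +
            2 ^ k' * (2 ^ (14 * s) * β2) * I' + 2 ^ (14 * s) * G * 2 ^ (m + 1) * I) := by ring
      _ = n * (2 ^ k' * (2 ^ 9 * 2 ^ (m + 1)) * I + 2 ^ (14 * s) * G * 2 ^ m * I' +
            2 ^ k' * (2 ^ 9 * 2 ^ m) * I' + 2 ^ (14 * s) * G * 2 ^ (m + 1) * I) := by
          rw [hb1, hb2]
      _ ≤ n * (2 ^ k' * (2 ^ 9 * (2 * (m + 1) * I')) * I +
            2 ^ (14 * s) * G * (2 * m * I) * I' +
            2 ^ k' * (2 ^ 9 * (2 * m * I)) * I' +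
            2 ^ (14 * s) * G * (2 * (m + 1) * I') * I) := by gcongr
      _ = 2 * n ^ 2 * (2 ^ 9 * 2 ^ k' + 2 ^ (14 * s) * G) * (I * I') := by
          rw [hn]
          ring
  have hmain2 : 2 ^ (14 * s) * 2 ^ k' ≤
      2 * n ^ 2 * (2 ^ 9 * 2 ^ k' + 2 ^ (14 * s) * G) :=
    Nat.le_of_mul_le_mul_right hmain (Nat.mul_pos hIpos hIpos')
  -- the bad part is small
  have hsq := sq_lt_two_pow hs
  have hn200 : n ≤ 200 * s := by omega
  have hsmall : 2 * (2 * n ^ 2 * 2 ^ 9) ≤ 2 ^ (14 * s) := by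
    have h1 : n ^ 2 ≤ (200 * s) ^ 2 := Nat.pow_le_pow_left hn200 2
    have h2 : 2 ^ (9 + s) ≤ 2 ^ (14 * s) := Nat.pow_le_pow_right (by norm_num) (by omega)
    have h3 : (2 : ℕ) ^ (9 + s) = 512 * 2 ^ s := by rw [pow_add]; norm_num
    nlinarith
  have h1 : 2 * (2 ^ (14 * s) * 2 ^ k') ≤ 2 ^ (14 * s) * 2 ^ k' +
      2 ^ (14 * s) * (4 * n ^ 2 * G) := by
    calc 2 * (2 ^ (14 * s) * 2 ^ k') ≤ 2 * (2 * n ^ 2 * (2 ^ 9 * 2 ^ k' + 2 ^ (14 * s) * G)) :=
          Nat.mul_le_mul_left _ hmain2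
      _ = 2 * (2 * n ^ 2 * 2 ^ 9) * 2 ^ k' + 2 ^ (14 * s) * (4 * n ^ 2 * G) := by ring
      _ ≤ 2 ^ (14 * s) * 2 ^ k' + 2 ^ (14 * s) * (4 * n ^ 2 * G) := by gcongr
  have h2 : 2 ^ (14 * s) * 2 ^ k' ≤ 2 ^ (14 * s) * (4 * n ^ 2 * G) := by omega
  exact Nat.le_of_mul_le_mul_left h2 (by positivity)

end Prog

/-- The arithmetic of the parameters. -/
theorem arith (n s T W : ℕ) (hs : 30 ≤ s) (hn : n ≤ 200 * s) (hn4 : 4 ≤ n) (hW : 1 ≤ W)
    (H : ∀ L k', 1 ≤ L → T ≤ L * s → k' ≤ s → L * k' ≤ 32 * s →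
      2 ^ k' ≤ 4 * n ^ 2 * (1 + (L - 1) * W)) :
    (n : ℝ) ^ 2 ≤ 200000 * (T * (Real.logb 2 W + Real.logb 2 n)) := by
  have hsq := sq_lt_two_pow hs
  have hn2 : n ^ 2 ≤ 40000 * s ^ 2 := by
    have := Nat.pow_le_pow_left hn 2
    nlinarith
  have hn2' : (n : ℝ) ^ 2 ≤ 40000 * (s : ℝ) ^ 2 := by exact_mod_cast hn2
  set L := T / s + 1 with hL
  have hTL : T < L * s := by
    rw [hL, add_mul, one_mul]
    have := Nat.div_add_mod T s
    have h2 := Nat.mod_lt T (show s > 0 by omega)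
    nlinarith
  have hLT : (L - 1) * s ≤ T := by
    rw [hL, Nat.add_sub_cancel]
    exact Nat.div_mul_le_self T s
  set w := Real.logb 2 W with hw
  set ν := Real.logb 2 n with hν
  have hw0 : 0 ≤ w := Real.logb_nonneg (by norm_num) (by exact_mod_cast hW)
  have hν2 : 2 ≤ ν := by
    rw [hν, Real.le_logb_iff_rpow_le (by norm_num) (by positivity)]
    norm_num
    exact hn4
  rcases Nat.lt_or_ge T s with hTs | hTs
  · -- the time is too short
    have hL1 : L = 1 := by rw [hL, Nat.div_eq_of_lt hTs]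
    have h1 := H 1 s le_rfl (by omega) le_rfl (by omega)
    rw [Nat.sub_self, zero_mul, add_zero, mul_one] at h1
    omega
  · have hL2 : 2 ≤ L := by
      rw [hL]
      have := Nat.div_pos hTs (by omega)
      omega
    have hLs : L * s ≤ 2 * T := by
      have : L * s ≤ 2 * ((L - 1) * s) := by
        have : L ≤ 2 * (L - 1) := by omega
        nlinarith
      omega
    have hLs' : (L : ℝ) * s ≤ 2 * T := by exact_mod_cast hLs
    have hT0 : (0 : ℝ) ≤ T := by positivity
    set k' := min s (32 * s / L) with hk'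
    have h1 := H L k' (by omega) hTL.le (min_le_left _ _) (by
      calc L * k' ≤ L * (32 * s / L) := Nat.mul_le_mul_left _ (min_le_right _ _)
        _ ≤ 32 * s := Nat.mul_div_le _ _)
    have h2 : 2 ^ k' ≤ 4 * n ^ 2 * (L * W) := by
      refine h1.trans (Nat.mul_le_mul_left _ ?_)
      have : L = (L - 1) + 1 := by omega
      calc 1 + (L - 1) * W ≤ W + (L - 1) * W := by omega
        _ = L * W := by
            conv_rhs => rw [this]
            ring
    rcases Nat.lt_or_ge L (n ^ 2) with hLn | hLn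
    · -- the typical case
      have h3 : 2 ^ k' ≤ 4 * n ^ 4 * W := by
        calc 2 ^ k' ≤ 4 * n ^ 2 * (L * W) := h2
          _ ≤ 4 * n ^ 2 * (n ^ 2 * W) := by gcongr
          _ = 4 * n ^ 4 * W := by ring
      have hnpos : (0 : ℝ) < n := by
        have : 0 < n := by omega
        exact_mod_cast this
      have hWpos : (0 : ℝ) < W := by exact_mod_cast hW
      have h4 : (k' : ℝ) ≤ 2 + 4 * ν + w := by
        have h5 : ((2 : ℝ) ^ k') ≤ 4 * (n : ℝ) ^ 4 * W := by exact_mod_cast h3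
        have h6 := Real.logb_le_logb_of_le (b := 2) (by norm_num) (by positivity) h5
        have h7 : Real.logb 2 ((2 : ℝ) ^ k') = k' := by
          rw [Real.logb_pow, Real.logb_self_eq_one (by norm_num), mul_one]
        rw [h7, Real.logb_mul (by positivity) (by positivity),
          Real.logb_mul (by norm_num) (by positivity), Real.logb_pow] at h6
        have h8 : Real.logb 2 4 = 2 := by
          rw [show (4 : ℝ) = 2 ^ (2 : ℕ) by norm_num, Real.logb_pow,
            Real.logb_self_eq_one (by norm_num)]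
          norm_num
        rw [h8] at h6
        push_cast at h6
        linarith
      have h5 : (k' : ℝ) ≤ 5 * (w + ν) := by linarith
      rcases min_choice s (32 * s / L) with hc | hc
      · rw [← hk'] at hc
        rw [hc] at h5
        have hTs' : (s : ℝ) ≤ T := by exact_mod_cast hTs
        have hs0 : (0 : ℝ) ≤ s := by positivity
        have h6 : (s : ℝ) * s ≤ T * (5 * (w + ν)) := mul_le_mul hTs' h5 hs0 hT0
        nlinarith
      · rw [← hk'] at hc
        have h6 : 32 * s < L * (k' + 1) := by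
          rw [hc]
          have := Nat.div_add_mod (32 * s) L
          have h7 := Nat.mod_lt (32 * s) (show L > 0 by omega)
          rw [mul_add, mul_one]
          omega
        have h6' : (32 : ℝ) * s ≤ L * (k' + 1) := by exact_mod_cast h6.le
        have hs0 : (0 : ℝ) ≤ s := by positivity
        have hL0 : (0 : ℝ) ≤ L := by positivity
        have h7 : (k' : ℝ) + 1 ≤ 6 * (w + ν) := by linarith
        have h8 : (32 : ℝ) * s * s ≤ L * s * (6 * (w + ν)) := by
          calc (32 : ℝ) * s * s ≤ L * (k' + 1) * s := mul_le_mul_of_nonneg_right h6' hs0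
            _ = L * s * (k' + 1) := by ring
            _ ≤ L * s * (6 * (w + ν)) := mul_le_mul_of_nonneg_left h7 (by positivity)
        have h9 : L * s * (6 * (w + ν)) ≤ 2 * T * (6 * (w + ν)) :=
          mul_le_mul_of_nonneg_right hLs' (by linarith)
        nlinarith
    · -- very long time
      have h3 : (n : ℝ) ^ 2 ≤ L := by exact_mod_cast hLn
      have hs1 : (1 : ℝ) ≤ s := by
        have : 1 ≤ s := by omega
        exact_mod_cast this
      have hL0 : (0 : ℝ) ≤ L := by positivity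
      have h4 : (L : ℝ) ≤ L * s := by nlinarith
      have h5 : (T : ℝ) ≤ T * (w + ν) := by nlinarith
      nlinarith

/-- The main theorem. -/
theorem main (m : ℕ) (hm : 2880 ≤ m) (V Ω : Type) [Fintype V] [Fintype Ω] (p : Ω → ℝ)
    (hp : ∀ ω, 0 ≤ p ω) (hp1 : ∑ ω, p ω = 1) (B : Ω → Prog V) (T : ℕ)
    (hB : ∀ g h : (ZMod 2)[X], Irreducible g → Irreducible h → g.natDegree = m →
      h.natDegree = m + 1 →
      (1 : ℝ) / (2 * m + 1) ≤ ∑ ω, (open Classical in if (B ω).Finds (g * h) T then p ω else 0)) :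
    (2 * m + 1 : ℝ) ^ 2 ≤
      200000 * (T * (Real.logb 2 (Fintype.card V) + Real.logb 2 (2 * m + 1))) := by
  classical
  set N : Ω → ℕ := fun ω => ((Prog.irrF m ×ˢ Prog.irrF (m + 1)).filter
    (fun q => (B ω).Finds (q.1 * q.2) T)).card with hN
  -- averaging
  have hex : ∃ ω, (Prog.irrF m).card * (Prog.irrF (m + 1)).card ≤ (2 * m + 1) * N ω := by
    by_contra hcon
    push Not at hcon
    set C := (Prog.irrF m).card * (Prog.irrF (m + 1)).card with hC
    have h1 : (C : ℝ) * (1 / (2 * m + 1)) ≤ ∑ ω, p ω * N ω := by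
      calc (C : ℝ) * (1 / (2 * m + 1))
          = ∑ q ∈ Prog.irrF m ×ˢ Prog.irrF (m + 1), (1 : ℝ) / (2 * m + 1) := by
            rw [Finset.sum_const, Finset.card_product, nsmul_eq_mul, hC]
        _ ≤ ∑ q ∈ Prog.irrF m ×ˢ Prog.irrF (m + 1),
            ∑ ω, (if (B ω).Finds (q.1 * q.2) T then p ω else 0) := by
            apply Finset.sum_le_sum
            rintro ⟨g, h⟩ hq
            rw [Finset.mem_product, Prog.mem_irrF, Prog.mem_irrF] at hq
            have := hB g h hq.1.1 hq.2.1 hq.1.2 hq.2.2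
            convert this using 2
        _ = ∑ ω, p ω * N ω := by
            rw [Finset.sum_comm]
            apply Finset.sum_congr rfl
            intro ω _
            rw [← Finset.sum_filter, Finset.sum_const, nsmul_eq_mul, hN, mul_comm]
    have h2 : ∀ ω, (2 * m + 1 : ℝ) * N ω ≤ C - 1 := by
      intro ω
      have h3 : (2 * m + 1) * N ω + 1 ≤ C := hcon ω
      have h4 : ((2 * m + 1 : ℝ) * N ω + 1) ≤ C := by exact_mod_cast h3
      linarith
    have hpos : (0 : ℝ) < 2 * m + 1 := by positivity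
    have h3 : (2 * m + 1 : ℝ) * ∑ ω, p ω * N ω ≤ C - 1 := by
      calc (2 * m + 1 : ℝ) * ∑ ω, p ω * N ω = ∑ ω, p ω * ((2 * m + 1 : ℝ) * N ω) := by
            rw [Finset.mul_sum]
            apply Finset.sum_congr rfl
            intro ω _
            ring
        _ ≤ ∑ ω, p ω * ((C : ℝ) - 1) := by
            apply Finset.sum_le_sum
            intro ω _
            exact mul_le_mul_of_nonneg_left (h2 ω) (hp ω)
        _ = C - 1 := by rw [← Finset.sum_mul, hp1, one_mul]
    have h4 : (2 * m + 1 : ℝ) * ((C : ℝ) * (1 / (2 * m + 1))) = C := by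
      field_simp
    have h5 : (C : ℝ) ≤ C - 1 := by
      calc (C : ℝ) = (2 * m + 1 : ℝ) * ((C : ℝ) * (1 / (2 * m + 1))) := h4.symm
        _ ≤ (2 * m + 1 : ℝ) * ∑ ω, p ω * N ω := mul_le_mul_of_nonneg_left h1 hpos.le
        _ ≤ C - 1 := h3
    linarith
  obtain ⟨ω, hω⟩ := hex
  -- parameters
  set s := m / 96 with hs
  have hs30 : 30 ≤ s := by omega
  have hm1 : 96 * s ≤ m := by omega
  have hm2 : m + 1 ≤ 96 * (s + 1) := by omega
  have : Nonempty V := ⟨(B ω).start⟩
  have hW : 1 ≤ Fintype.card V := Fintype.card_pos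
  have h1 := arith (2 * m + 1) s T (Fintype.card V) hs30 (by omega) (by omega) hW
    (fun L k' hL hT hk hLk => (B ω).core m s L T k' hs30 hm1 hm2 hL hT hk hLk hω)
  push_cast at h1
  exact h1

end Pool.TSF
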