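import Mathlib

/-!
Hankel forms over the field with two elements: a nonzero vector supported in the middle is a value
of few polynomials.
-/

set_option autoImplicit false

namespace Pool.TSF

open Polynomial

/-- `hank U j p = ∑ p_i U_{i+j}`. -/
noncomputable def hank {K : Type*} [Field K] (U : ℕ → K) (j : ℕ) : K[X] →ₗ[K] K :=
  Polynomial.lsum (fun i => LinearMap.toSpanSingleton K K (U (i + j)))

lemma hank_monomial {K : Type*} [Field K] (U : ℕ → K) (j i : ℕ) (a : K) :
    hank U j (monomial i a) = a * U (i + j) := by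
  simp [hank, Polynomial.lsum_apply, LinearMap.toSpanSingleton_apply]

lemma hank_apply {K : Type*} [Field K] (U : ℕ → K) (j : ℕ) (p : K[X]) :
    hank U j p = p.sum (fun i a => a * U (i + j)) := by
  simp [hank, Polynomial.lsum_apply, LinearMap.toSpanSingleton_apply]

lemma hank_mul {K : Type*} [Field K] (U : ℕ → K) (j : ℕ) (c h : K[X]) :
    hank U j (c * h) = c.sum (fun i a => a * hank U (j + i) h) := by
  induction c using Polynomial.induction_on' with
  | add p q hp hq =>
    rw [add_mul, map_add, hp, hq, Polynomial.sum_add_index]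
    · intro i; simp
    · intro i a b; ring
  | monomial i a =>
    rw [Polynomial.sum_monomial_index _ _ (by simp)]
    induction h using Polynomial.induction_on' with
    | add p q hp hq => rw [mul_add, map_add, hp, hq, map_add]; ring
    | monomial l b =>
      rw [Polynomial.monomial_mul_monomial, hank_monomial, hank_monomial]
      rw [show i + l + j = l + (j + i) by ring]
      ring

/-- The polynomials of degree at most `m' + t` annihilated by the first `m - t` forms. -/
noncomputable def ker {K : Type*} [Field K] (U : ℕ → K) (m' m t : ℕ) : Submodule K K[X] :=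
  degreeLT K (m' + t + 1) ⊓ ⨅ j ∈ Finset.range (m - t), LinearMap.ker (hank U j)

lemma mem_ker {K : Type*} [Field K] (U : ℕ → K) (m' m t : ℕ) (p : K[X]) :
    p ∈ ker U m' m t ↔ p ∈ degreeLT K (m' + t + 1) ∧ ∀ j < m - t, hank U j p = 0 := by
  simp [ker, Submodule.mem_iInf]

lemma ker_le {K : Type*} [Field K] (U : ℕ → K) (m' m t : ℕ) :
    ker U m' m t ≤ ker U m' m (t + 1) := by
  intro p hp
  rw [mem_ker] at hp ⊢
  refine ⟨?_, fun j hj => hp.2 j (by omega)⟩
  exact degreeLT_mono (by omega) hp.1

lemma X_mul_mem_ker {K : Type*} [Field K] (U : ℕ → K) (m' m t : ℕ) {p : K[X]}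
    (hp : p ∈ ker U m' m t) : X * p ∈ ker U m' m (t + 1) := by
  rw [mem_ker] at hp ⊢
  constructor
  · rw [mem_degreeLT] at hp ⊢
    rcases eq_or_ne p 0 with rfl | h0
    · simp
    · have h1 := hp.1
      rw [degree_eq_natDegree h0] at h1
      rw [degree_mul, degree_X, degree_eq_natDegree h0]
      have h2 : p.natDegree < m' + t + 1 := by exact_mod_cast h1
      have h3 : 1 + p.natDegree < m' + (t + 1) + 1 := by omega
      exact_mod_cast h3
  · intro j hj
    have h1 := hank_mul U j X p
    rw [h1, Polynomial.sum_X_index (by simp), one_mul]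
    exact hp.2 (j + 1) (by omega)

section card

lemma card_degreeLT (n : ℕ) : Nat.card (degreeLT (ZMod 2) n) = 2 ^ n := by
  rw [Nat.card_congr (degreeLTEquiv (ZMod 2) n).toEquiv, Nat.card_fun]
  simp

instance finite_degreeLT (n : ℕ) : Finite (degreeLT (ZMod 2) n) :=
  Finite.of_equiv _ (degreeLTEquiv (ZMod 2) n).toEquiv.symm

instance finite_ker (U : ℕ → ZMod 2) (m' m t : ℕ) : Finite (ker U m' m t) := by
  have h : ker U m' m t ≤ degreeLT (ZMod 2) (m' + t + 1) := inf_le_left
  exact Finite.of_injective _ (Submodule.inclusion_injective h)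

lemma two_mul_card_le (U : ℕ → ZMod 2) (m' m t : ℕ) (h : ker U m' m t ≠ ⊥) :
    2 * Nat.card (ker U m' m t) ≤ Nat.card (ker U m' m (t + 1)) := by
  have hle := ker_le U m' m t
  -- strictness
  have hne : ∃ p ∈ ker U m' m (t + 1), p ∉ ker U m' m t := by
    by_contra hcon
    push Not at hcon
    obtain ⟨p, hp, hp0⟩ := (Submodule.ne_bot_iff _).mp h
    have hall : ∀ i, X ^ i * p ∈ ker U m' m t := by
      intro i
      induction i with
      | zero => simpa using hp
      | succ i ih =>
        have := hcon _ (X_mul_mem_ker U m' m t ih)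
        rwa [← mul_assoc, ← pow_succ'] at this
    have h1 := ((mem_ker _ _ _ _ _).mp (hall (m' + t + 1))).1
    rw [mem_degreeLT, degree_mul, degree_X_pow, degree_eq_natDegree hp0] at h1
    have h2 : m' + t + 1 + p.natDegree < m' + t + 1 := by exact_mod_cast h1
    omega
  have hdvd : Nat.card (ker U m' m t) ∣ Nat.card (ker U m' m (t + 1)) := by
    have := AddSubgroup.card_dvd_of_le (H := (ker U m' m t).toAddSubgroup)
      (K := (ker U m' m (t + 1)).toAddSubgroup) hle
    exact this
  obtain ⟨c, hc⟩ := hdvd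
  have hpos : 0 < Nat.card (ker U m' m (t + 1)) := Nat.card_pos
  have hc0 : c ≠ 0 := by
    rintro rfl
    omega
  have hc1 : c ≠ 1 := by
    rintro rfl
    obtain ⟨p, hp, hp'⟩ := hne
    have hinj := Submodule.inclusion_injective hle
    have hsurj : Function.Surjective (Submodule.inclusion hle) := by
      have h1 : Nat.card (ker U m' m t) = Nat.card (ker U m' m (t + 1)) := by omega
      exact (Function.Injective.bijective_of_nat_card_le hinj h1.ge).2
    obtain ⟨⟨q, hq⟩, hq'⟩ := hsurj ⟨p, hp⟩
    apply hp'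
    have h2 := congrArg Subtype.val hq'
    simp only [Submodule.coe_inclusion] at h2
    rw [← h2]
    exact hq
  rw [hc, mul_comm]
  exact Nat.mul_le_mul_left _ (by omega)

lemma ker_ne_bot (U : ℕ → ZMod 2) (m' m t : ℕ) (h : ker U m' m 0 ≠ ⊥) :
    ker U m' m t ≠ ⊥ := by
  induction t with
  | zero => exact h
  | succ t ih =>
    intro hbot
    exact ih (le_bot_iff.mp (hbot ▸ ker_le U m' m t))

lemma card_ker_zero (U : ℕ → ZMod 2) (m' m t : ℕ) (h : ker U m' m 0 ≠ ⊥) :
    2 ^ t * Nat.card (ker U m' m 0) ≤ Nat.card (ker U m' m t) := by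
  induction t with
  | zero => simp
  | succ t ih =>
    have := two_mul_card_le U m' m t (ker_ne_bot U m' m t h)
    rw [pow_succ]
    calc 2 ^ t * 2 * Nat.card (ker U m' m 0) = 2 * (2 ^ t * Nat.card (ker U m' m 0)) := by ring
      _ ≤ 2 * Nat.card (ker U m' m t) := by gcongr
      _ ≤ _ := this

/-- The windows of a vector with first nonzero entry `j0` are independent. -/
lemma card_ker_le (U : ℕ → ZMod 2) (m' m t j0 : ℕ) (h : (ZMod 2)[X]) (hdeg : h.natDegree ≤ m')
    (ht : t ≤ j0) (htm : t + j0 < m) (hz : ∀ j < j0, hank U j h = 0) (hnz : hank U j0 h ≠ 0) :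
    Nat.card (ker U m' m t) ≤ 2 ^ m' := by
  have key : ∀ c ∈ degreeLT (ZMod 2) (t + 1), c * h ∈ ker U m' m t → c = 0 := by
    intro c hc hch
    by_contra hc0
    rw [mem_ker] at hch
    rw [mem_degreeLT, degree_eq_natDegree hc0] at hc
    have hct : c.natDegree < t + 1 := by exact_mod_cast hc
    have h1 := hch.2 (j0 - c.natDegree) (by omega)
    rw [hank_mul, Polynomial.sum_over_range' c (by simp) (c.natDegree + 1) (by omega),
      Finset.sum_range_succ] at h1
    rw [Finset.sum_eq_zero] at h1
    · rw [zero_add] at h1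
      rw [show j0 - c.natDegree + c.natDegree = j0 by omega] at h1
      rcases mul_eq_zero.mp h1 with h2 | h2
      · exact hc0 (by rwa [Polynomial.coeff_natDegree, Polynomial.leadingCoeff_eq_zero] at h2)
      · exact hnz h2
    · intro i hi
      rw [Finset.mem_range] at hi
      rw [hz _ (by omega), mul_zero]
  have hmem : ∀ c ∈ degreeLT (ZMod 2) (t + 1), c * h ∈ degreeLT (ZMod 2) (m' + t + 1) := by
    intro c hc
    rcases eq_or_ne c 0 with rfl | hc0
    · simp
    rw [mem_degreeLT, degree_eq_natDegree hc0] at hc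
    have hct : c.natDegree < t + 1 := by exact_mod_cast hc
    rw [mem_degreeLT]
    refine lt_of_le_of_lt (degree_le_natDegree) ?_
    have h2 := natDegree_mul_le (p := c) (q := h)
    have h3 : (c * h).natDegree < m' + t + 1 := by omega
    exact_mod_cast h3
  let φ : ker U m' m t × degreeLT (ZMod 2) (t + 1) → degreeLT (ZMod 2) (m' + t + 1) :=
    fun x => ⟨x.1.1 + x.2.1 * h,
      Submodule.add_mem _ ((mem_ker _ _ _ _ _).mp x.1.2).1 (hmem _ x.2.2)⟩
  have hφ : Function.Injective φ := by
    rintro ⟨⟨p, hp⟩, ⟨c, hc⟩⟩ ⟨⟨q, hq⟩, ⟨d, hd⟩⟩ hpq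
    have h1 : p + c * h = q + d * h := congrArg Subtype.val hpq
    have h2 : (c - d) * h = q - p := by linear_combination h1
    have h3 : c - d = 0 := by
      apply key _ (Submodule.sub_mem _ hc hd)
      rw [h2]
      exact Submodule.sub_mem _ hq hp
    have h4 : c = d := sub_eq_zero.mp h3
    subst h4
    have h5 : p = q := by simpa using h1
    subst h5
    rfl
  have h1 := Nat.card_le_card_of_injective φ hφ
  rw [Nat.card_prod, card_degreeLT, card_degreeLT] at h1
  have h2 : (2 : ℕ) ^ (m' + t + 1) = 2 ^ m' * 2 ^ (t + 1) := by rw [← pow_add]; congr 1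
  rw [h2] at h1
  exact Nat.le_of_mul_le_mul_right h1 (by positivity)

/-- A nonzero vector supported in the middle is a value of few polynomials. -/
theorem card_solutions (U v : ℕ → ZMod 2) (m' m a b t : ℕ) (hv : ∀ j < m, v j ≠ 0 → a ≤ j ∧ j < b)
    (hv0 : ∃ j < m, v j ≠ 0) (hta : t ≤ a) (htb : t + b ≤ m) (htm : t ≤ m') :
    Set.ncard {h : (ZMod 2)[X] | h.natDegree ≤ m' ∧ ∀ j < m, hank U j h = v j} ≤
      2 ^ (m' - t) := by
  rcases Set.eq_empty_or_nonempty
    {h : (ZMod 2)[X] | h.natDegree ≤ m' ∧ ∀ j < m, hank U j h = v j} with he | ⟨h, hh⟩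
  · rw [he, Set.ncard_empty]
    exact Nat.zero_le _
  -- the solutions are a coset of the kernel
  have hsub : ∀ h' ∈ {h : (ZMod 2)[X] | h.natDegree ≤ m' ∧ ∀ j < m, hank U j h = v j},
      h' - h ∈ ker U m' m 0 := by
    intro h' hh'
    rw [mem_ker]
    refine ⟨?_, fun j hj => ?_⟩
    · rw [mem_degreeLT]
      refine lt_of_le_of_lt (degree_le_natDegree) ?_
      have h2 := natDegree_sub_le h' h
      have h3 : (h' - h).natDegree < m' + 0 + 1 := by
        have := hh'.1
        have := hh.1
        omega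
      exact_mod_cast h3
    · rw [map_sub, hh'.2 j (by omega), hh.2 j (by omega), sub_self]
  have hle : Set.ncard {h : (ZMod 2)[X] | h.natDegree ≤ m' ∧ ∀ j < m, hank U j h = v j} ≤
      Nat.card (ker U m' m 0) := by
    rw [← Nat.card_coe_set_eq]
    apply Nat.card_le_card_of_injective
      (fun x : {h : (ZMod 2)[X] | h.natDegree ≤ m' ∧ ∀ j < m, hank U j h = v j} =>
        (⟨x.1 - h, hsub x.1 x.2⟩ : ker U m' m 0))
    intro x y hxy
    have h1 : x.1 - h = y.1 - h := congrArg Subtype.val hxy
    exact Subtype.ext (sub_left_inj.mp h1)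
  refine hle.trans ?_
  by_cases hbot : ker U m' m 0 = ⊥
  · rw [hbot]
    have : Nat.card (⊥ : Submodule (ZMod 2) (ZMod 2)[X]) = 1 := by
      rw [Nat.card_eq_one_iff_unique]
      exact ⟨inferInstance, inferInstance⟩
    rw [this]
    exact Nat.one_le_two_pow
  · -- the first nonzero entry
    classical
    have hex : ∃ j, j < m ∧ v j ≠ 0 := hv0
    obtain ⟨hj0m, hj0⟩ := Nat.find_spec hex
    set j0 := Nat.find hex with hj0def
    have hmin : ∀ j < j0, v j = 0 := by
      intro j hj
      by_contra hcon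
      exact Nat.find_min hex hj ⟨by omega, hcon⟩
    obtain ⟨h1, h2⟩ := hv j0 hj0m hj0
    have h3 := card_ker_le U m' m t j0 h hh.1 (by omega) (by omega)
      (fun j hj => by rw [hh.2 j (by omega)]; exact hmin j hj)
      (by rw [hh.2 j0 hj0m]; exact hj0)
    have h4 := card_ker_zero U m' m t hbot
    have h5 : (2 : ℕ) ^ m' = 2 ^ t * 2 ^ (m' - t) := by rw [← pow_add]; congr 1; omega
    rw [h5] at h3
    exact Nat.le_of_mul_le_mul_left (h4.trans h3) (by positivity)

end card

end Pool.TSF
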