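import Pool.Agent.TSF.Hankel

/-!
The number of irreducible polynomials of degree `m` over the field with two elements is at least
`2 ^ m / (2 m)`.
-/

set_option autoImplicit false

namespace Pool.TSF

open Polynomial

/-- The irreducible polynomials of degree `d`. -/
def irr (d : ℕ) : Set (ZMod 2)[X] := {P | Irreducible P ∧ P.natDegree = d}

lemma zmod2_eq_one {x : ZMod 2} (h : x ≠ 0) : x = 1 := by
  revert x
  decide

lemma monic_of_ne_zero {P : (ZMod 2)[X]} (h : P ≠ 0) : P.Monic :=
  zmod2_eq_one (leadingCoeff_ne_zero.mpr h)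

lemma finite_natDegree_le (d : ℕ) : {P : (ZMod 2)[X] | P.natDegree ≤ d}.Finite := by
  have h : {P : (ZMod 2)[X] | P.natDegree ≤ d} ⊆
      ((degreeLT (ZMod 2) (d + 1) : Submodule (ZMod 2) (ZMod 2)[X]) : Set (ZMod 2)[X]) := by
    intro P hP
    rw [SetLike.mem_coe, mem_degreeLT]
    refine lt_of_le_of_lt degree_le_natDegree ?_
    have h3 : P.natDegree < d + 1 := Nat.lt_succ_of_le hP
    exact_mod_cast h3
  have hf : Finite (degreeLT (ZMod 2) (d + 1)) := finite_degreeLT (d + 1)
  have hf' : ((degreeLT (ZMod 2) (d + 1) : Submodule (ZMod 2) (ZMod 2)[X]) :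
      Set (ZMod 2)[X]).Finite := hf
  exact hf'.subset h

lemma finite_irr (d : ℕ) : (irr d).Finite :=
  (finite_natDegree_le d).subset (fun _ hP => hP.2.le)

lemma eq_of_dvd {P Q : (ZMod 2)[X]} (hP : Irreducible P) (hQ : Irreducible Q) (h : P ∣ Q) :
    P = Q :=
  eq_of_monic_of_associated (monic_of_ne_zero hP.ne_zero) (monic_of_ne_zero hQ.ne_zero)
    (hP.associated_of_dvd hQ h)

lemma natDegree_frob {d : ℕ} (hd : 1 ≤ d) :
    (X ^ 2 ^ d - X : (ZMod 2)[X]).natDegree = 2 ^ d :=
  FiniteField.X_pow_card_pow_sub_X_natDegree_eq (ZMod 2) (by omega) (by norm_num)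

lemma frob_ne_zero {d : ℕ} (hd : 1 ≤ d) : (X ^ 2 ^ d - X : (ZMod 2)[X]) ≠ 0 :=
  FiniteField.X_pow_card_pow_sub_X_ne_zero (ZMod 2) (by omega) (by norm_num)

lemma mul_ncard_irr_le {d : ℕ} (hd : 1 ≤ d) : d * (irr d).ncard ≤ 2 ^ d := by
  classical
  set s := (finite_irr d).toFinset with hs
  have hmem : ∀ P, P ∈ s ↔ Irreducible P ∧ P.natDegree = d := by
    intro P
    rw [hs, Set.Finite.mem_toFinset]
    rfl
  have hcard : (irr d).ncard = s.card := by
    rw [hs, ← Set.ncard_coe_finset, Set.Finite.coe_toFinset]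
  have hdvd : ∏ P ∈ s, P ∣ (X ^ 2 ^ d - X : (ZMod 2)[X]) := by
    apply Finset.prod_dvd_of_coprime
    · intro P hP Q hQ hne
      rw [Finset.mem_coe, hmem] at hP hQ
      exact (hP.1.coprime_iff_not_dvd).mpr (fun h => hne (eq_of_dvd hP.1 hQ.1 h))
    · intro P hP
      rw [hmem] at hP
      have h1 := (hP.1.natDegree_dvd_iff_dvd_X_pow_card_pow_sub_X (n := d)).mp
        (by rw [hP.2])
      rwa [Nat.card_zmod] at h1
  have h1 := natDegree_le_of_dvd hdvd (frob_ne_zero hd)
  rw [natDegree_frob hd, natDegree_prod _ _ (fun P hP => ((hmem P).mp hP).1.ne_zero)] at h1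
  rw [Finset.sum_congr rfl (fun P hP => ((hmem P).mp hP).2), Finset.sum_const, smul_eq_mul] at h1
  rw [hcard, mul_comm]
  exact h1

lemma sum_two_pow (k : ℕ) : ∑ d ∈ Finset.Icc 1 k, 2 ^ d + 2 = 2 ^ (k + 1) := by
  induction k with
  | zero => simp
  | succ k ih =>
    rw [Finset.sum_Icc_succ_top (by omega), pow_succ 2 (k + 1)]
    omega

theorem irr_lower {m : ℕ} (hm : 1 ≤ m) : 2 ^ m ≤ 2 * m * (irr m).ncard := by
  classical
  set Q : (ZMod 2)[X] := X ^ 2 ^ m - X with hQ
  have hQ0 : Q ≠ 0 := frob_ne_zero hm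
  have hsep : Q.Separable := galois_poly_separable 2 (2 ^ m) (dvd_pow_self 2 (by omega))
  have hsq : Squarefree Q := hsep.squarefree
  set M := UniqueFactorizationMonoid.normalizedFactors Q with hM
  have hnodup : M.Nodup :=
    (UniqueFactorizationMonoid.squarefree_iff_nodup_normalizedFactors hQ0).mp hsq
  have hprod : Associated M.prod Q := UniqueFactorizationMonoid.prod_normalizedFactors hQ0
  have hprod' : M.prod = ∏ P ∈ M.toFinset, P := by
    rw [Finset.prod_multiset_count]
    apply Finset.prod_congr rfl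
    intro P hP
    rw [Multiset.count_eq_one_of_mem hnodup (Multiset.mem_toFinset.mp hP), pow_one]
  have hirr : ∀ P ∈ M.toFinset, Irreducible P ∧ P.natDegree ∣ m := by
    intro P hP
    rw [Multiset.mem_toFinset] at hP
    have h1 := UniqueFactorizationMonoid.irreducible_of_normalized_factor P hP
    refine ⟨h1, ?_⟩
    have h2 := UniqueFactorizationMonoid.dvd_of_mem_normalizedFactors hP
    apply h1.natDegree_dvd_of_dvd_X_pow_card_pow_sub_X
    rwa [Nat.card_zmod]
  have hdeg : ∑ P ∈ M.toFinset, P.natDegree = 2 ^ m := by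
    have h1 : M.prod.natDegree = Q.natDegree := by
      have := degree_eq_degree_of_associated hprod
      exact natDegree_eq_of_degree_eq this
    rw [hprod', natDegree_prod _ _ (fun P hP => (hirr P hP).1.ne_zero), natDegree_frob hm] at h1
    exact h1
  -- split the sum by the degree
  have hsplit : ∑ P ∈ M.toFinset, P.natDegree ≤
      m * (irr m).ncard + ∑ d ∈ Finset.Icc 1 (m / 2), 2 ^ d := by
    have h1 : M.toFinset ⊆ (finite_irr m).toFinset ∪
        (Finset.Icc 1 (m / 2)).biUnion (fun d => (finite_irr d).toFinset) := by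
      intro P hP
      obtain ⟨h1, h2⟩ := hirr P hP
      rw [Finset.mem_union]
      by_cases h3 : P.natDegree = m
      · left
        rw [Set.Finite.mem_toFinset]
        exact ⟨h1, h3⟩
      · right
        rw [Finset.mem_biUnion]
        refine ⟨P.natDegree, ?_, ?_⟩
        · rw [Finset.mem_Icc]
          refine ⟨h1.natDegree_pos, ?_⟩
          obtain ⟨c, hc⟩ := h2
          have hc2 : 2 ≤ c := by
            rcases c with _ | _ | c
            · omega
            · exact absurd (by omega) h3
            · omega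
          rw [Nat.le_div_iff_mul_le (by norm_num), hc]
          exact Nat.mul_le_mul_left _ hc2
        · rw [Set.Finite.mem_toFinset]
          exact ⟨h1, rfl⟩
    calc ∑ P ∈ M.toFinset, P.natDegree
        ≤ ∑ P ∈ (finite_irr m).toFinset ∪
          (Finset.Icc 1 (m / 2)).biUnion (fun d => (finite_irr d).toFinset), P.natDegree :=
          Finset.sum_le_sum_of_subset h1
      _ ≤ ∑ P ∈ (finite_irr m).toFinset, P.natDegree +
          ∑ P ∈ (Finset.Icc 1 (m / 2)).biUnion (fun d => (finite_irr d).toFinset),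
            P.natDegree := by
          rw [← Finset.sum_union_inter]
          exact Nat.le_add_right _ _
      _ ≤ m * (irr m).ncard + ∑ d ∈ Finset.Icc 1 (m / 2), 2 ^ d := by
          gcongr ?_ + ?_
          · rw [Finset.sum_congr rfl (fun P hP => ((Set.Finite.mem_toFinset _).mp hP).2),
              Finset.sum_const, smul_eq_mul, mul_comm]
            rw [← Set.ncard_coe_finset, Set.Finite.coe_toFinset]
          · rw [Finset.sum_biUnion]
            swap
            · intro d _ e _ hde
              rw [Function.onFun, Finset.disjoint_left]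
              intro P hP hP'
              rw [Set.Finite.mem_toFinset] at hP hP'
              exact hde (hP.2.symm.trans hP'.2)
            apply Finset.sum_le_sum
            intro d hd
            rw [Finset.mem_Icc] at hd
            rw [Finset.sum_congr rfl (fun P hP => ((Set.Finite.mem_toFinset _).mp hP).2),
              Finset.sum_const, smul_eq_mul, mul_comm, ← Set.ncard_coe_finset,
              Set.Finite.coe_toFinset]
            exact mul_ncard_irr_le hd.1
  rw [hdeg] at hsplit
  have h2 := sum_two_pow (m / 2)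
  have h3 : 2 * 2 ^ (m / 2 + 1) ≤ 2 ^ m + 4 := by
    rcases Nat.lt_or_ge m 3 with h | h
    · interval_cases m <;> norm_num
    · have : m / 2 + 2 ≤ m := by omega
      calc 2 * 2 ^ (m / 2 + 1) = 2 ^ (m / 2 + 2) := by ring
        _ ≤ 2 ^ m := Nat.pow_le_pow_right (by norm_num) this
        _ ≤ _ := by omega
  nlinarith

end Pool.TSF
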