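import Pool.Agent.TSF.Irr

/-!
If `h` is good, the middle coefficients of `g` are independent of few coefficients of `g * h`.
-/

set_option autoImplicit false

namespace Pool.TSF

open Polynomial

/-- The indicator function of a finite set. -/
def ind (A : Finset ℕ) (q : ℕ) : ZMod 2 := if q ∈ A then 1 else 0

/-- `h` is bad: few coefficients of `g * h` determine a relation between few coefficients of `g`
with index in `[a, b)`. -/
def Bad (m n a b r k : ℕ) (h : (ZMod 2)[X]) : Prop :=
  ∃ A D : Finset ℕ, A ⊆ Finset.range (n + 1) ∧ A.card ≤ r ∧ D ⊆ Finset.Ico a b ∧ D.Nonempty ∧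
    D.card ≤ k ∧ ∀ j < m, hank (ind A) j h = ind D j

/-- The polynomial with coefficients `c`. -/
noncomputable def low (m : ℕ) (c : Fin m → ZMod 2) : (ZMod 2)[X] :=
  ∑ j : Fin m, C (c j) * X ^ (j : ℕ)

/-- The monic polynomial of degree `m` with lower coefficients `c`. -/
noncomputable def pol (m : ℕ) (c : Fin m → ZMod 2) : (ZMod 2)[X] := X ^ m + low m c

lemma low_add (m : ℕ) (c w : Fin m → ZMod 2) : low m (c + w) = low m c + low m w := by
  simp [low, add_mul, Finset.sum_add_distrib]

lemma coeff_low_mul (m : ℕ) (c : Fin m → ZMod 2) (h : (ZMod 2)[X]) (q : ℕ) :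
    (low m c * h).coeff q = ∑ j : Fin m, (X ^ (j : ℕ) * h).coeff q * c j := by
  rw [low, Finset.sum_mul, finsetSum_coeff]
  apply Finset.sum_congr rfl
  intro j _
  rw [mul_assoc, coeff_C_mul, mul_comm]

lemma zmod2_ite (x : ZMod 2) : (if x ≠ 0 then (1 : ZMod 2) else 0) = x := by
  revert x
  decide

/-- Few coefficients of the product do not see the middle coefficients of `g`. -/
lemma exists_lift (m m' a b r k : ℕ) (h : (ZMod 2)[X]) (hdeg : h.natDegree ≤ m')
    (hgood : ¬ Bad m (m + m') a b r k h) (q : Fin r → ℕ) (K : Finset (Fin m))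
    (hK : K.card ≤ k) (hKm : ∀ j ∈ K, a ≤ (j : ℕ) ∧ (j : ℕ) < b) (γ : K → ZMod 2) :
    ∃ w : Fin m → ZMod 2, (∀ i, (low m w * h).coeff (q i) = 0) ∧ ∀ j : K, w j = γ j := by
  classical
  let P : (Fin m → ZMod 2) →ₗ[ZMod 2] (Fin r → ZMod 2) :=
    Matrix.mulVecLin (Matrix.of fun (i : Fin r) (j : Fin m) => (X ^ (j : ℕ) * h).coeff (q i))
  have hP : ∀ w i, P w i = (low m w * h).coeff (q i) := by
    intro w i
    rw [coeff_low_mul]
    rfl
  let S : (Fin m → ZMod 2) →ₗ[ZMod 2] (K → ZMod 2) :=
    LinearMap.funLeft (ZMod 2) (ZMod 2) (Subtype.val : K → Fin m)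
  have hS : ∀ w j, S w j = w j := fun w j => rfl
  suffices hsurj : Submodule.map S (LinearMap.ker P) = ⊤ by
    have h1 : γ ∈ Submodule.map S (LinearMap.ker P) := by rw [hsurj]; trivial
    obtain ⟨w, hw, hw'⟩ := h1
    refine ⟨w, fun i => ?_, fun j => ?_⟩
    · rw [← hP]
      have := LinearMap.mem_ker.mp hw
      rw [this]
      rfl
    · rw [← hw']
      rfl
  by_contra hne
  obtain ⟨f, hf0, hf⟩ := Submodule.exists_le_ker_of_lt_top _ (lt_top_iff_ne_top.mpr hne)
  have h1 : f.comp S ∈ (LinearMap.ker P).dualAnnihilator := by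
    rw [Submodule.mem_dualAnnihilator]
    intro w hw
    exact hf (Submodule.mem_map_of_mem hw)
  rw [← LinearMap.range_dualMap_eq_dualAnnihilator_ker] at h1
  obtain ⟨θ, hθ⟩ := h1
  have h2 : ∀ w, f (S w) = θ (P w) := fun w => by
    have := LinearMap.congr_fun hθ w
    exact this.symm
  set u : Fin r → ZMod 2 := fun i => θ (Pi.single i 1) with hu
  have hθs : ∀ y, θ y = ∑ i, y i * u i := by
    intro y
    conv_lhs => rw [← Finset.univ_sum_single y]
    rw [map_sum]
    apply Finset.sum_congr rfl
    intro i _
    have : (Pi.single i (y i) : Fin r → ZMod 2) = y i • Pi.single i 1 := by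
      ext l
      by_cases hl : l = i
      · subst hl; simp
      · simp [hl]
    rw [this, map_smul, smul_eq_mul]
  -- the value on the unit vectors
  set e : Fin m → (Fin m → ZMod 2) := fun j => Pi.single j 1 with he
  have h3 : ∀ j : Fin m, f (S (e j)) = ∑ i, (X ^ (j : ℕ) * h).coeff (q i) * u i := by
    intro j
    rw [h2, hθs]
    apply Finset.sum_congr rfl
    intro i _
    rw [hP, coeff_low_mul]
    congr 1
    rw [Finset.sum_eq_single j]
    · simp [he]
    · intro l _ hl
      simp [he, hl]
    · intro hj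
      exact absurd (Finset.mem_univ j) hj
  set A : Finset ℕ := (Finset.range (m + m' + 1)).filter
    (fun x => ∑ i ∈ Finset.univ.filter (fun i => q i = x), u i ≠ 0) with hA
  set D : Finset ℕ := Finset.image (fun j : Fin m => (j : ℕ))
    (Finset.univ.filter (fun j : Fin m => f (S (e j)) ≠ 0)) with hD
  have hjK : ∀ j : Fin m, f (S (e j)) ≠ 0 → j ∈ K := by
    intro j hj
    by_contra hjK
    apply hj
    have : S (e j) = 0 := by
      ext l
      rw [hS]
      have hl : (l : Fin m) ≠ j := by
        intro hl
        exact hjK (hl ▸ l.2)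
      simp [he, hl]
    rw [this, map_zero]
  apply hgood
  refine ⟨A, D, Finset.filter_subset _ _, ?_, ?_, ?_, ?_, ?_⟩
  · -- `A` is contained in the image of `q`
    have hsub : A ⊆ Finset.univ.image q := by
      intro x hx
      rw [hA, Finset.mem_filter] at hx
      rw [Finset.mem_image]
      by_contra hcon
      push Not at hcon
      apply hx.2
      rw [Finset.filter_false_of_mem (fun i _ => hcon i (Finset.mem_univ i)), Finset.sum_empty]
    calc A.card ≤ (Finset.univ.image q).card := Finset.card_le_card hsub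
      _ ≤ (Finset.univ : Finset (Fin r)).card := Finset.card_image_le
      _ = r := by simp
  · intro x hx
    rw [hD, Finset.mem_image] at hx
    obtain ⟨j, hj, rfl⟩ := hx
    rw [Finset.mem_filter] at hj
    rw [Finset.mem_Ico]
    exact hKm j (hjK j hj.2)
  · -- `f` does not vanish on some unit vector
    rw [hD, Finset.image_nonempty]
    by_contra hcon
    rw [Finset.not_nonempty_iff_eq_empty] at hcon
    apply hf0
    apply LinearMap.pi_ext'
    intro j
    ext
    simp only [LinearMap.comp_apply, LinearMap.zero_apply, LinearMap.single_apply]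
    have h4 : (j : Fin m) ∉ Finset.univ.filter (fun j : Fin m => f (S (e j)) ≠ 0) := by
      rw [hcon]
      exact Finset.notMem_empty _
    rw [Finset.mem_filter, not_and, not_not] at h4
    have h5 := h4 (Finset.mem_univ _)
    have h6 : S (e j) = Pi.single j 1 := by
      ext l
      rw [hS]
      by_cases hl : l = j
      · subst hl; simp [he]
      · have : (l : Fin m) ≠ j := fun h' => hl (Subtype.ext h')
        simp [he, hl, this]
    rw [← h6]
    exact h5
  · calc D.card ≤ (Finset.univ.filter (fun j : Fin m => f (S (e j)) ≠ 0)).card :=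
          Finset.card_image_le
      _ ≤ K.card := by
          apply Finset.card_le_card
          intro j hj
          rw [Finset.mem_filter] at hj
          exact hjK j hj.2
      _ ≤ k := hK
  · intro j hj
    have hDj : ind D j = f (S (e ⟨j, hj⟩)) := by
      unfold ind
      rw [← zmod2_ite (f (S (e ⟨j, hj⟩)))]
      congr 1
      rw [hD, Finset.mem_image, eq_iff_iff]
      constructor
      · rintro ⟨l, hl, hl'⟩
        rw [Finset.mem_filter] at hl
        have : l = ⟨j, hj⟩ := Fin.ext hl'
        rw [← this]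
        exact hl.2
      · intro h'
        exact ⟨⟨j, hj⟩, by rw [Finset.mem_filter]; exact ⟨Finset.mem_univ _, h'⟩, rfl⟩
    rw [hDj, h3, hank_apply, Polynomial.sum_over_range' h (by simp) (m' + 1) (by omega)]
    have h4 : ∀ l ∈ Finset.range (m' + 1), h.coeff l * ind A (l + j) =
        ∑ i, (if q i = l + j then h.coeff l * u i else 0) := by
      intro l hl
      rw [Finset.mem_range] at hl
      unfold ind
      rw [hA]
      have h5 : (l + j ∈ (Finset.range (m + m' + 1)).filter
          (fun x => ∑ i ∈ Finset.univ.filter (fun i => q i = x), u i ≠ 0)) ↔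
          ∑ i ∈ Finset.univ.filter (fun i => q i = l + j), u i ≠ 0 := by
        rw [Finset.mem_filter, Finset.mem_range]
        exact ⟨fun h => h.2, fun h => ⟨by omega, h⟩⟩
      simp only [h5]
      rw [zmod2_ite, Finset.mul_sum, Finset.sum_filter]
    rw [Finset.sum_congr rfl h4, Finset.sum_comm]
    apply Finset.sum_congr rfl
    intro i _
    simp only [coeff_X_pow_mul']
    by_cases hji : j ≤ q i
    · rw [if_pos hji]
      by_cases hl : q i - j < m' + 1
      · rw [Finset.sum_eq_single (q i - j)]
        · rw [if_pos (by omega)]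
        · intro l _ hne
          rw [if_neg (by omega)]
        · intro hne
          exact absurd (Finset.mem_range.mpr hl) hne
      · rw [Finset.sum_eq_zero, coeff_eq_zero_of_natDegree_lt (by omega), zero_mul]
        intro l hl'
        rw [Finset.mem_range] at hl'
        rw [if_neg (by omega)]
    · rw [if_neg hji, zero_mul]
      apply Finset.sum_eq_zero
      intro l _
      rw [if_neg (by omega)]

/-- Counting form. -/
theorem card_cond (m m' a b r k : ℕ) (h : (ZMod 2)[X]) (hdeg : h.natDegree ≤ m')
    (hgood : ¬ Bad m (m + m') a b r k h) (q : Fin r → ℕ) (α : Fin r → ZMod 2)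
    (K : Finset (Fin m)) (hK : K.card ≤ k) (hKm : ∀ j ∈ K, a ≤ (j : ℕ) ∧ (j : ℕ) < b)
    (β : Fin m → ZMod 2) :
    2 ^ K.card * (Finset.univ.filter (fun c : Fin m → ZMod 2 =>
      (∀ i, (pol m c * h).coeff (q i) = α i) ∧ ∀ j ∈ K, c j = β j)).card ≤
      (Finset.univ.filter (fun c : Fin m → ZMod 2 =>
        ∀ i, (pol m c * h).coeff (q i) = α i)).card := by
  classical
  choose w hw1 hw2 using exists_lift m m' a b r k h hdeg hgood q K hK hKm
  have h1 : 2 ^ K.card = (Finset.univ : Finset (K → ZMod 2)).card := by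
    rw [Finset.card_univ, Fintype.card_fun, ZMod.card, Fintype.card_coe]
  rw [h1, ← Finset.card_product]
  apply Finset.card_le_card_of_injOn (fun x => x.2 + w x.1)
  · rintro ⟨γ, c⟩ hx
    rw [Finset.mem_coe, Finset.mem_product, Finset.mem_filter] at hx
    rw [Finset.mem_coe, Finset.mem_filter]
    refine ⟨Finset.mem_univ _, fun i => ?_⟩
    show (pol m (c + w γ) * h).coeff (q i) = α i
    rw [pol, low_add, ← add_assoc, add_mul, coeff_add, hw1 γ i, add_zero]
    exact hx.2.2.1 i
  · rintro ⟨γ, c⟩ hx ⟨γ', c'⟩ hx' hxx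
    rw [Finset.mem_coe, Finset.mem_product, Finset.mem_filter] at hx hx'
    have hxx' : c + w γ = c' + w γ' := hxx
    have h2 : γ = γ' := by
      ext j
      have h3 := congrFun hxx' j
      have h4 : c j = β j := hx.2.2.2 j j.2
      have h5 : c' j = β j := hx'.2.2.2 j j.2
      rw [Pi.add_apply, Pi.add_apply, h4, h5, hw2, hw2] at h3
      rw [add_left_cancel h3]
    subst h2
    have h3 : c = c' := add_right_cancel hxx'
    subst h3
    rfl

end Pool.TSF
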