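import Pool.Agent.TSF.Prog
import Pool.Agent.TSF.Count

/-!
The time-space tradeoff for finding a factor: deterministic programs, random products.
-/

set_option autoImplicit false

namespace Pool.TSF

open Polynomial

namespace Prog

variable {V : Type} (B : Prog V)

/-- All coefficients of `g` (degree `μ`) are claimed on the input `g * h`, and nothing wrong about
them. -/
def Succ (T μ : ℕ) (g h : (ZMod 2)[X]) : Prop :=
  ∀ j < μ, ∀ y, (μ, j, y) ∈ B.claims (g * h) T ↔ y = g.coeff j

/-- The middle positions. -/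
def mid (μ a b : ℕ) : Finset (Fin μ) :=
  Finset.univ.filter (fun j => a ≤ (j : ℕ) ∧ (j : ℕ) < b)

lemma card_mid (μ a b : ℕ) (hb : b ≤ μ) : (mid μ a b).card = b - a := by
  have h : (mid μ a b).map Fin.valEmbedding = Finset.Ico a b := by
    ext x
    rw [Finset.mem_map, Finset.mem_Ico]
    constructor
    · rintro ⟨j, hj, rfl⟩
      rw [mid, Finset.mem_filter] at hj
      exact hj.2
    · rintro ⟨h1, h2⟩
      refine ⟨⟨x, by omega⟩, ?_, rfl⟩
      rw [mid, Finset.mem_filter]
      exact ⟨Finset.mem_univ _, h1, h2⟩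
  rw [← Finset.card_map Fin.valEmbedding, h, Nat.card_Ico]

lemma pol_coeff (μ : ℕ) (c : Fin μ → ZMod 2) (j : Fin μ) : (pol μ c).coeff j = c j := by
  rw [pol, coeff_add, coeff_X_pow, if_neg (by have := j.2; omega), zero_add, low,
    finsetSum_coeff]
  simp only [coeff_C_mul_X_pow]
  rw [Finset.sum_eq_single j]
  · simp
  · intro i _ hij
    rw [if_neg]
    intro h
    exact hij (Fin.ext h.symm)
  · intro h
    exact absurd (Finset.mem_univ j) h

lemma pol_eq (μ : ℕ) (g : (ZMod 2)[X]) (hg : g.Monic) (hd : g.natDegree = μ) :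
    pol μ (fun j => g.coeff j) = g := by
  rw [pol, low]
  conv_rhs => rw [hg.as_sum, hd]
  rw [Finset.sum_range]

/-- A run which is right on all coefficients of `g` has a good block. -/
lemma exists_block (μ a b r k' L T : ℕ) (hr : 1 ≤ r) (hL : 1 ≤ L) (hT : T ≤ L * r)
    (hk : L * k' ≤ b - a) (hb : b ≤ μ) (h : (ZMod 2)[X]) (c : Fin μ → ZMod 2)
    (hs : B.Succ T μ (pol μ c) h) :
    ∃ i < L, B.Block μ a b h T (i * r) (B.state (pol μ c * h) (i * r)) r k' c := by
  classical
  set f := pol μ c * h with hf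
  have hcl : ∀ j : Fin μ, ∃ t < T, (μ, (j : ℕ), c j) ∈
      B.out t (B.state f t) (f.coeff (B.pos t (B.state f t))) := by
    intro j
    have h1 := (hs j j.2 (c j)).mpr (pol_coeff μ c j).symm
    obtain ⟨t, ht, hm⟩ := h1
    exact ⟨t, ht, hm⟩
  choose tm htT htm using hcl
  obtain ⟨i, hi, hcard⟩ := Finset.exists_le_card_fiber_of_mul_le_card_of_maps_to
    (s := mid μ a b) (t := Finset.range L) (f := fun j => tm j / r) (n := k')
    (by
      intro j _
      rw [Finset.mem_range]
      apply Nat.div_lt_of_lt_mul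
      have := htT j
      rw [mul_comm]
      omega)
    (by rw [Finset.nonempty_range_iff]; omega)
    (by rw [Finset.card_range, card_mid μ a b hb]; exact hk)
  obtain ⟨K, hKs, hKc⟩ := Finset.exists_subset_card_eq hcard
  rw [Finset.mem_range] at hi
  have hmem : ∀ j ∈ K, (a ≤ (j : ℕ) ∧ (j : ℕ) < b) ∧ tm j / r = i := by
    intro j hj
    have h1 := hKs hj
    rw [Finset.mem_filter, mid, Finset.mem_filter] at h1
    exact ⟨h1.1.2, h1.2⟩
  refine ⟨i, hi, ?_, K, hKc, fun j hj => (hmem j hj).1, ?_⟩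
  · intro j _ _ y hy
    obtain ⟨l, hl, hlT, hlm⟩ := hy
    have h1 : (μ, (j : ℕ), y) ∈ B.claims f T := by
      refine ⟨i * r + l, hlT, ?_⟩
      rw [B.state_add]
      exact hlm
    rw [(hs j j.2 y).mp h1, pol_coeff]
  · intro j hj
    refine ⟨c j, tm j % r, Nat.mod_lt _ (by omega), ?_, ?_⟩
    · have h1 := (hmem j hj).2
      have h2 := Nat.div_add_mod (tm j) r
      rw [h1, mul_comm] at h2
      rw [h2]
      exact htT j
    · have h1 := (hmem j hj).2
      have h2 := Nat.div_add_mod (tm j) r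
      rw [h1, mul_comm] at h2
      have h3 := htm j
      rw [← h2, B.state_add] at h3
      exact h3

open Classical in
/-- The number of `g` for which a program succeeds, for a good `h`. -/
theorem card_succ_good [Fintype V] (μ μ' a b r k k' L T : ℕ) (hr : 1 ≤ r) (hL : 1 ≤ L)
    (hT : T ≤ L * r) (hk : L * k' ≤ b - a) (hb : b ≤ μ) (hkk : k' ≤ k) (h : (ZMod 2)[X])
    (hdeg : h.natDegree ≤ μ') (hgood : ¬ Bad μ (μ + μ') a b r k h) :
    2 ^ k' * (Finset.univ.filter (fun c : Fin μ → ZMod 2 => B.Succ T μ (pol μ c) h)).card ≤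
      (1 + (L - 1) * Fintype.card V) * 2 ^ μ := by
  set E : ℕ → V → Finset (Fin μ → ZMod 2) := fun t₀ v =>
    Finset.univ.filter (B.Block μ a b h T t₀ v r k') with hE
  have hEc : ∀ t₀ v, 2 ^ k' * (E t₀ v).card ≤ 2 ^ μ := fun t₀ v =>
    B.card_block μ μ' a b r k k' h hdeg hgood T t₀ v hkk
  have hsub : Finset.univ.filter (fun c : Fin μ → ZMod 2 => B.Succ T μ (pol μ c) h) ⊆
      E 0 B.start ∪ (Finset.Ico 1 L ×ˢ (Finset.univ : Finset V)).biUnion
        (fun p => E (p.1 * r) p.2) := by
    intro c hc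
    rw [Finset.mem_filter] at hc
    obtain ⟨i, hi, hblock⟩ := B.exists_block μ a b r k' L T hr hL hT hk hb h c hc.2
    rw [Finset.mem_union]
    rcases Nat.eq_zero_or_pos i with rfl | hi0
    · left
      rw [hE, Finset.mem_filter]
      rw [zero_mul] at hblock
      exact ⟨Finset.mem_univ _, hblock⟩
    · right
      rw [Finset.mem_biUnion]
      refine ⟨(i, B.state (pol μ c * h) (i * r)), ?_, ?_⟩
      · rw [Finset.mem_product, Finset.mem_Ico]
        exact ⟨⟨hi0, hi⟩, Finset.mem_univ _⟩
      · rw [hE, Finset.mem_filter]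
        exact ⟨Finset.mem_univ _, hblock⟩
  calc 2 ^ k' * (Finset.univ.filter (fun c : Fin μ → ZMod 2 => B.Succ T μ (pol μ c) h)).card
      ≤ 2 ^ k' * ((E 0 B.start).card + ∑ p ∈ Finset.Ico 1 L ×ˢ (Finset.univ : Finset V),
          (E (p.1 * r) p.2).card) := by
        apply Nat.mul_le_mul_left
        refine (Finset.card_le_card hsub).trans ((Finset.card_union_le _ _).trans ?_)
        exact Nat.add_le_add_left Finset.card_biUnion_le _
    _ = 2 ^ k' * (E 0 B.start).card + ∑ p ∈ Finset.Ico 1 L ×ˢ (Finset.univ : Finset V),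
          2 ^ k' * (E (p.1 * r) p.2).card := by
        rw [mul_add, Finset.mul_sum]
    _ ≤ 2 ^ μ + ∑ p ∈ Finset.Ico 1 L ×ˢ (Finset.univ : Finset V), 2 ^ μ := by
        apply Nat.add_le_add (hEc _ _)
        exact Finset.sum_le_sum (fun p _ => hEc _ _)
    _ = (1 + (L - 1) * Fintype.card V) * 2 ^ μ := by
        rw [Finset.sum_const, smul_eq_mul, Finset.card_product, Nat.card_Ico,
          Finset.card_univ]
        ring

/-- The finite set of irreducible polynomials. -/
noncomputable def irrF (d : ℕ) : Finset (ZMod 2)[X] := (finite_irr d).toFinset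

lemma mem_irrF {d : ℕ} {P : (ZMod 2)[X]} : P ∈ irrF d ↔ Irreducible P ∧ P.natDegree = d := by
  rw [irrF, Set.Finite.mem_toFinset]
  rfl

lemma card_irrF (d : ℕ) : (irrF d).card = (irr d).ncard := by
  rw [irrF, ← Set.ncard_coe_finset, Set.Finite.coe_toFinset]

open Classical in
/-- The number of pairs `(g, h)` for which the program finds the first factor. -/
theorem card_pairs [Fintype V] (μ μ' a b r k k' L T β : ℕ) (hr : 1 ≤ r) (hL : 1 ≤ L)
    (hT : T ≤ L * r) (hk : L * k' ≤ b - a) (hb : b ≤ μ) (hkk : k' ≤ k)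
    (hβ : Set.ncard {h : (ZMod 2)[X] | h.natDegree ≤ μ' ∧ Bad μ (μ + μ') a b r k h} ≤ β) :
    2 ^ k' * ((irrF μ ×ˢ irrF μ').filter (fun p => B.Succ T μ p.1 p.2)).card ≤
      2 ^ k' * β * (irrF μ).card +
        (1 + (L - 1) * Fintype.card V) * 2 ^ μ * (irrF μ').card := by
  set G := (1 + (L - 1) * Fintype.card V) * 2 ^ μ with hG
  have hsum : ((irrF μ ×ˢ irrF μ').filter (fun p => B.Succ T μ p.1 p.2)).card =
      ∑ h ∈ irrF μ', ((irrF μ).filter (fun g => B.Succ T μ g h)).card := by
    rw [Finset.card_filter, Finset.sum_product_right]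
    apply Finset.sum_congr rfl
    intro h _
    rw [Finset.card_filter]
  set bad := (irrF μ').filter (fun h => Bad μ (μ + μ') a b r k h) with hbad
  have hbadc : bad.card ≤ β := by
    refine le_trans ?_ hβ
    rw [← Set.ncard_coe_finset]
    apply Set.ncard_le_ncard
    · intro h hh
      rw [Finset.mem_coe, hbad, Finset.mem_filter, mem_irrF] at hh
      exact ⟨hh.1.2.le, hh.2⟩
    · exact (finite_natDegree_le μ').subset (fun h hh => hh.1)
  have hgood : ∀ h ∈ irrF μ', ¬ Bad μ (μ + μ') a b r k h →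
      2 ^ k' * ((irrF μ).filter (fun g => B.Succ T μ g h)).card ≤ G := by
    intro h hh hg
    rw [mem_irrF] at hh
    have h1 := B.card_succ_good μ μ' a b r k k' L T hr hL hT hk hb hkk h hh.2.le hg
    refine le_trans (Nat.mul_le_mul_left _ ?_) h1
    apply Finset.card_le_card_of_injOn (fun g (j : Fin μ) => g.coeff j)
    · intro g hg
      rw [Finset.mem_coe, Finset.mem_filter, mem_irrF] at hg
      rw [Finset.mem_coe, Finset.mem_filter]
      refine ⟨Finset.mem_univ _, ?_⟩
      rw [pol_eq μ g (monic_of_ne_zero hg.1.1.ne_zero) hg.1.2]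
      exact hg.2
    · intro g hg g' hg' hgg
      rw [Finset.mem_coe, Finset.mem_filter, mem_irrF] at hg hg'
      rw [← pol_eq μ g (monic_of_ne_zero hg.1.1.ne_zero) hg.1.2,
        ← pol_eq μ g' (monic_of_ne_zero hg'.1.1.ne_zero) hg'.1.2]
      exact congrArg (pol μ) hgg
  rw [hsum, Finset.mul_sum, ← Finset.sum_filter_add_sum_filter_not (irrF μ')
    (fun h => Bad μ (μ + μ') a b r k h)]
  apply Nat.add_le_add
  · calc ∑ h ∈ bad, 2 ^ k' * ((irrF μ).filter (fun g => B.Succ T μ g h)).card
        ≤ ∑ h ∈ bad, 2 ^ k' * (irrF μ).card := by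
          apply Finset.sum_le_sum
          intro h _
          exact Nat.mul_le_mul_left _ (Finset.card_le_card (Finset.filter_subset _ _))
      _ = bad.card * (2 ^ k' * (irrF μ).card) := by rw [Finset.sum_const, smul_eq_mul]
      _ ≤ β * (2 ^ k' * (irrF μ).card) := Nat.mul_le_mul_right _ hbadc
      _ = 2 ^ k' * β * (irrF μ).card := by ring
  · calc ∑ h ∈ (irrF μ').filter (fun h => ¬ Bad μ (μ + μ') a b r k h),
          2 ^ k' * ((irrF μ).filter (fun g => B.Succ T μ g h)).card
        ≤ ∑ h ∈ (irrF μ').filter (fun h => ¬ Bad μ (μ + μ') a b r k h), G := by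
          apply Finset.sum_le_sum
          intro h hh
          rw [Finset.mem_filter] at hh
          exact hgood h hh.1 hh.2
      _ = ((irrF μ').filter (fun h => ¬ Bad μ (μ + μ') a b r k h)).card * G := by
          rw [Finset.sum_const, smul_eq_mul]
      _ ≤ (irrF μ').card * G := Nat.mul_le_mul_right _ (Finset.card_le_card
          (Finset.filter_subset _ _))
      _ = G * (irrF μ').card := by ring

end Prog

end Pool.TSF
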