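import Mathlib

/-!
Programs with random access to the coefficients of the input polynomial over the field with two
elements.
-/

set_option autoImplicit false

namespace Pool.TSF

open Polynomial

/-- A nonuniform program with random access to the input polynomial and with set of states `V`.
At time `t`, in state `v`, it reads the coefficient of `X ^ pos t v` of the input; depending on
the value `x` read it writes the claims `out t v x` and passes to the state `next t v x`.
The claim `(d, j, y)` says: the coefficient of `X ^ j` of the irreducible factor of degree `d`
is `y`. -/
structure Prog (V : Type) where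
  /-- the initial state -/
  start : V
  /-- the position read -/
  pos : ℕ → V → ℕ
  /-- the next state -/
  next : ℕ → V → ZMod 2 → V
  /-- the claims written -/
  out : ℕ → V → ZMod 2 → Set (ℕ × ℕ × ZMod 2)

namespace Prog

variable {V : Type} (B : Prog V)

/-- The state after `t` steps on the input `f`. -/
noncomputable def state (f : (ZMod 2)[X]) : ℕ → V
  | 0 => B.start
  | t + 1 => B.next t (state f t) (f.coeff (B.pos t (state f t)))

/-- The claims written in the first `T` steps on the input `f`. -/
def claims (f : (ZMod 2)[X]) (T : ℕ) : Set (ℕ × ℕ × ZMod 2) :=
  {x | ∃ t < T, x ∈ B.out t (B.state f t) (f.coeff (B.pos t (B.state f t)))}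

/-- In the first `T` steps on the input `f` the program finds a nontrivial factor: for some
irreducible factor `P` of `f` with `deg P < deg f` it writes all coefficients of `P`, and no wrong
claim about these coefficients. -/
def Finds (f : (ZMod 2)[X]) (T : ℕ) : Prop :=
  ∃ P : (ZMod 2)[X], Irreducible P ∧ P ∣ f ∧ P.natDegree < f.natDegree ∧
    ∀ j < P.natDegree, ∀ y, (P.natDegree, j, y) ∈ B.claims f T ↔ y = P.coeff j

end Prog

end Pool.TSF
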