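import Pool.Agent.TSF.Lin
import Pool.Agent.TSF.Model

/-!
The bound for one block of steps of a program.
-/

set_option autoImplicit false

namespace Pool.TSF

open Polynomial

namespace Prog

variable {V : Type} (B : Prog V)

/-- The state after `i` steps from the state `v` at time `t₀`. -/
noncomputable def bst (f : (ZMod 2)[X]) (t₀ : ℕ) (v : V) : ℕ → V
  | 0 => v
  | i + 1 => B.next (t₀ + i) (bst f t₀ v i) (f.coeff (B.pos (t₀ + i) (bst f t₀ v i)))

/-- The same with prescribed answers. -/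
def ast (t₀ : ℕ) (v : V) (τ : ℕ → ZMod 2) : ℕ → V
  | 0 => v
  | i + 1 => B.next (t₀ + i) (ast t₀ v τ i) (τ i)

lemma state_add (f : (ZMod 2)[X]) (t₀ i : ℕ) :
    B.state f (t₀ + i) = B.bst f t₀ (B.state f t₀) i := by
  induction i with
  | zero => rfl
  | succ i ih =>
    rw [← add_assoc]
    show B.next (t₀ + i) (B.state f (t₀ + i)) _ = _
    rw [ih]
    rfl

/-- The answers in the block. -/
noncomputable def bans (f : (ZMod 2)[X]) (t₀ : ℕ) (v : V) (i : ℕ) : ZMod 2 :=
  f.coeff (B.pos (t₀ + i) (B.bst f t₀ v i))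

lemma bst_eq_ast (f : (ZMod 2)[X]) (t₀ : ℕ) (v : V) (τ : ℕ → ZMod 2) (r : ℕ)
    (h : ∀ i < r, B.bans f t₀ v i = τ i) : ∀ i ≤ r, B.bst f t₀ v i = B.ast t₀ v τ i := by
  intro i
  induction i with
  | zero => intro _; rfl
  | succ i ih =>
    intro hi
    show B.next (t₀ + i) (B.bst f t₀ v i) (B.bans f t₀ v i) = _
    rw [ih (by omega), h i (by omega)]
    rfl

lemma bans_eq_iff (f : (ZMod 2)[X]) (t₀ : ℕ) (v : V) (τ : ℕ → ZMod 2) (r : ℕ) :
    (∀ i < r, B.bans f t₀ v i = τ i) ↔
      ∀ i < r, f.coeff (B.pos (t₀ + i) (B.ast t₀ v τ i)) = τ i := by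
  constructor
  · intro h i hi
    rw [← B.bst_eq_ast f t₀ v τ r h i hi.le]
    exact h i hi
  · intro h
    have key : ∀ i ≤ r, B.bst f t₀ v i = B.ast t₀ v τ i ∧ ∀ l < i, B.bans f t₀ v l = τ l := by
      intro i
      induction i with
      | zero => intro _; exact ⟨rfl, fun l hl => absurd hl (Nat.not_lt_zero l)⟩
      | succ i ih =>
        intro hi
        obtain ⟨h1, h2⟩ := ih (by omega)
        have h3 : B.bans f t₀ v i = τ i := by
          unfold bans
          rw [h1]
          exact h i hi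
        refine ⟨?_, ?_⟩
        · show B.next (t₀ + i) (B.bst f t₀ v i) (B.bans f t₀ v i) = _
          rw [h3, h1]
          rfl
        · intro l hl
          rcases Nat.lt_succ_iff_lt_or_eq.mp hl with h4 | rfl
          · exact h2 l h4
          · exact h3
    exact (key r le_rfl).2

/-- Extension of a finite sequence by zero. -/
def ext {r : ℕ} (τ : Fin r → ZMod 2) (i : ℕ) : ZMod 2 := if h : i < r then τ ⟨i, h⟩ else 0

/-- The claim `(d, j, y)` is made in the block of `r` steps from `(t₀, v)`, before time `T`. -/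
def bclaim (f : (ZMod 2)[X]) (T t₀ : ℕ) (v : V) (r d j : ℕ) (y : ZMod 2) : Prop :=
  ∃ i < r, t₀ + i < T ∧ (d, j, y) ∈ B.out (t₀ + i) (B.bst f t₀ v i) (B.bans f t₀ v i)

/-- The block makes claims on at least `k` middle coefficients of `g` and all claims on middle
coefficients are right. -/
def Block (m a b : ℕ) (h : (ZMod 2)[X]) (T t₀ : ℕ) (v : V) (r k : ℕ)
    (c : Fin m → ZMod 2) : Prop :=
  (∀ j : Fin m, a ≤ (j : ℕ) → (j : ℕ) < b → ∀ y,
      B.bclaim (pol m c * h) T t₀ v r m j y → y = c j) ∧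
    ∃ K : Finset (Fin m), K.card = k ∧ (∀ j ∈ K, a ≤ (j : ℕ) ∧ (j : ℕ) < b) ∧
      ∀ j ∈ K, ∃ y, B.bclaim (pol m c * h) T t₀ v r m j y

open Classical in
/-- The bound for one block. -/
theorem card_block (m m' a b r k k' : ℕ) (h : (ZMod 2)[X]) (hdeg : h.natDegree ≤ m')
    (hgood : ¬ Bad m (m + m') a b r k h) (T t₀ : ℕ) (v : V) (hk : k' ≤ k) :
    2 ^ k' * (Finset.univ.filter (B.Block m a b h T t₀ v r k')).card ≤ 2 ^ m := by
  -- the answers
  set A : (Fin m → ZMod 2) → (Fin r → ZMod 2) :=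
    fun c i => B.bans (pol m c * h) t₀ v i with hA
  have hfib : ∀ (τ : Fin r → ZMod 2) (c : Fin m → ZMod 2), A c = τ ↔
      ∀ i : Fin r, (pol m c * h).coeff (B.pos (t₀ + i) (B.ast t₀ v (ext τ) i)) = τ i := by
    intro τ c
    have h1 := B.bans_eq_iff (pol m c * h) t₀ v (ext τ) r
    constructor
    · intro hc i
      have h2 := h1.mp (fun i hi => by
        have := congrFun hc ⟨i, hi⟩
        rw [hA] at this
        rw [ext, dif_pos hi]
        exact this) i i.2
      rw [h2, ext, dif_pos i.2]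
    · intro hc
      ext i
      have h2 := h1.mpr (fun i hi => by
        have := hc ⟨i, hi⟩
        rw [this, ext, dif_pos hi]) i i.2
      rw [hA]
      show B.bans (pol m c * h) t₀ v i = τ i
      rw [h2, ext, dif_pos i.2]
  have hsum : (Finset.univ.filter (B.Block m a b h T t₀ v r k')).card =
      ∑ τ : Fin r → ZMod 2, ((Finset.univ.filter (B.Block m a b h T t₀ v r k')).filter
        (fun c => A c = τ)).card :=
    Finset.card_eq_sum_card_fiberwise (fun c _ => Finset.mem_univ _)
  have hsum' : 2 ^ m = ∑ τ : Fin r → ZMod 2, ((Finset.univ : Finset (Fin m → ZMod 2)).filter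
        (fun c => A c = τ)).card := by
    rw [← Finset.card_eq_sum_card_fiberwise (fun c _ => Finset.mem_univ _)]
    rw [Finset.card_univ, Fintype.card_fun, ZMod.card, Fintype.card_fin]
  rw [hsum, hsum', Finset.mul_sum]
  apply Finset.sum_le_sum
  intro τ _
  rcases Finset.eq_empty_or_nonempty ((Finset.univ.filter
    (B.Block m a b h T t₀ v r k')).filter (fun c => A c = τ)) with he | ⟨c₀, hc₀⟩
  · rw [he, Finset.card_empty, mul_zero]
    exact Nat.zero_le _
  -- a common set of claimed coefficients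
  rw [Finset.mem_filter, Finset.mem_filter] at hc₀
  obtain ⟨⟨-, hc1, K, hKc, hKm, hK⟩, hcτ⟩ := hc₀
  -- the claims only depend on the answers
  have hcl : ∀ c c', A c = τ → A c' = τ → ∀ d j y, B.bclaim (pol m c * h) T t₀ v r d j y →
      B.bclaim (pol m c' * h) T t₀ v r d j y := by
    intro c c' hc hc' d j y hcl
    have hb : ∀ i < r, B.bans (pol m c * h) t₀ v i = ext τ i := by
      intro i hi
      have := congrFun hc ⟨i, hi⟩
      rw [ext, dif_pos hi]
      exact this
    have hb' : ∀ i < r, B.bans (pol m c' * h) t₀ v i = ext τ i := by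
      intro i hi
      have := congrFun hc' ⟨i, hi⟩
      rw [ext, dif_pos hi]
      exact this
    obtain ⟨i, hi, hiT, hmem⟩ := hcl
    refine ⟨i, hi, hiT, ?_⟩
    rw [B.bst_eq_ast _ t₀ v _ r hb' i hi.le, hb' i hi]
    rwa [B.bst_eq_ast _ t₀ v _ r hb i hi.le, hb i hi] at hmem
  choose! y hy using hK
  have hβ : ∀ c, (∀ j : Fin m, a ≤ (j : ℕ) → (j : ℕ) < b → ∀ y,
      B.bclaim (pol m c * h) T t₀ v r m j y → y = c j) → A c = τ → ∀ j ∈ K, c j = y j := by
    intro c hc hcA j hj
    exact (hc j (hKm j hj).1 (hKm j hj).2 (y j)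
      (hcl c₀ c hcτ hcA m j (y j) (hy j hj))).symm
  have h1 := card_cond m m' a b r k h hdeg hgood
    (fun i => B.pos (t₀ + i) (B.ast t₀ v (ext τ) i)) τ K (hKc ▸ hk) hKm y
  rw [hKc] at h1
  calc 2 ^ k' * ((Finset.univ.filter (B.Block m a b h T t₀ v r k')).filter
        (fun c => A c = τ)).card
      ≤ 2 ^ k' * (Finset.univ.filter (fun c : Fin m → ZMod 2 =>
        (∀ i : Fin r, (pol m c * h).coeff (B.pos (t₀ + i) (B.ast t₀ v (ext τ) i)) = τ i) ∧
          ∀ j ∈ K, c j = y j)).card := by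
        apply Nat.mul_le_mul_left
        apply Finset.card_le_card
        intro c hc
        rw [Finset.mem_filter, Finset.mem_filter] at hc
        rw [Finset.mem_filter]
        exact ⟨Finset.mem_univ _, (hfib τ c).mp hc.2, hβ c hc.1.2.1 hc.2⟩
    _ ≤ (Finset.univ.filter (fun c : Fin m → ZMod 2 =>
        ∀ i : Fin r, (pol m c * h).coeff (B.pos (t₀ + i) (B.ast t₀ v (ext τ) i)) = τ i)).card :=
        h1
    _ ≤ ((Finset.univ : Finset (Fin m → ZMod 2)).filter (fun c => A c = τ)).card := by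
        apply Finset.card_le_card
        intro c hc
        rw [Finset.mem_filter] at hc ⊢
        exact ⟨Finset.mem_univ _, (hfib τ c).mpr hc.2⟩

end Prog

end Pool.TSF
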